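import Pool.Agent.Q263.IW.Final

/-!
# Ivrii's conjecture in the plane for almost every table with corners

Project IWP of helper263, with the modules of helpers 285 and 195 listed in
`Pool/Agent/Q263/IW/Final.lean` and those of project IVP (helpers 26, 38, 65, 144).

A table is given by walls: `{x | ∀ i, h i x < 0}`, `i : Fin m`, with functions `h i` of class `C²` on
the plane. `WTraj` (`Pool/Agent/Q263/IW/Def.lean`) is a piece of a billiard trajectory which does
not run into corners, `WTwice`, `WPer`, `ReturnWall`, `PerOnce` are in `Cor.lean`,
`GoodW`, `PolW`, `EntW`, `TransFam` in `Final.lean`, `pol` in `Pool/Agent/Q263/IV/Def.lean`.

The proof is described in `MP_249f74_an.WallsInGeneralPosition`. All walls are perturbed by the same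
polynomial; the direction of the space of polynomials which is used for a trajectory with
`p b = p a` (`b` minimal) is a polynomial which is positive at `p a` and vanishes together with its
gradient at the bounce points in between.
-/

set_option autoImplicit false

open Set MeasureTheory

namespace Pool.Agent.Results.MP_ac23f1_an.AlmostEveryCornerTable

open Q263.IW

/-- In the plane, let `f i`, `i < m`, be arbitrary functions of class `C²`.

1. If `D ≥ 2 (N - 1)` then for almost every polynomial `P` of degree at most `D` in each variable, almost
   no trajectory in the table `{x | ∀ i, f i x + P x < 0}` meets a boundary point twice within `N`
   bounces, and almost no phase point is periodic with a period at most `N`.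
2. There are sequences of polynomials `P j` with arbitrarily small coefficients, independent of the
   walls, such that this holds for all `N` and the perturbation `∑ t j P j`, for almost every point `t`
   of the Hilbert cube.
3. For almost all translations `s i` of the walls, almost every periodic trajectory in the table
   with the walls `f i (x - s i)` meets every wall which it meets at least twice in a period. -/
theorem result : PolW 2 ∧ EntW 2 ∧ TransFam (EuclideanSpace ℝ (Fin 2)) 2 :=
  ⟨polW le_rfl, entW le_rfl, transFam le_rfl (by simp)⟩

end Pool.Agent.Results.MP_ac23f1_an.AlmostEveryCornerTable
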